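import Pool.Agent.Helper41.Ip.CH

/-!
# Conditional moments: package LR1
-/

set_option autoImplicit false
set_option linter.unusedSectionVars false
open MeasureTheory Filter Topology ProbabilityTheory
open scoped ContDiff ENNReal InnerProductSpace

namespace Pool.Agent.Helper41.Lr

open Pool.Agent.Helper26.Ip
open Pool.Agent.Helper41.Ip
open Complex (I)

noncomputable section

section general

variable {Ω : Type*} [MeasurableSpace Ω] {μ : Measure Ω} [IsProbabilityMeasure μ]

theorem meas_g {g : Ω → ℝ} (hg : Integrable g μ) (c : Lp ℝ 2 μ) :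
    AEStronglyMeasurable (fun f => (g f : ℂ) * Complex.exp (I * ((c f : ℝ) : ℂ))) μ :=
  (Complex.continuous_ofReal.comp_aestronglyMeasurable hg.aestronglyMeasurable).mul (meas_exp c)

/-- LR1a -/
theorem g_cont (g : Ω → ℝ) (hg : Integrable g μ) : Continuous fun c : Lp ℝ 2 μ =>
    ∫ f, (g f : ℂ) * Complex.exp (I * ((c f : ℝ) : ℂ)) ∂μ := by
  rw [continuous_iff_seqContinuous]
  intro u c hu
  refine tendsto_of_subseq_tendsto fun ns hns => ?_
  have h1 : Tendsto (fun n => u (ns n)) atTop (𝓝 c) := hu.comp hns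
  obtain ⟨ms, -, hms⟩ := (tendstoInMeasure_of_tendsto_Lp h1).exists_seq_tendsto_ae
  refine ⟨ms, ?_⟩
  refine tendsto_integral_of_dominated_convergence (fun f => |g f|)
    (fun n => meas_g hg _) hg.abs (fun n => Eventually.of_forall fun f => ?_) ?_
  · rw [norm_mul, norm_exp_one, mul_one, Complex.norm_real, Real.norm_eq_abs]
  · filter_upwards [hms] with f hf
    refine Tendsto.const_mul _ ?_
    refine (Complex.continuous_exp.tendsto _).comp ?_
    exact Tendsto.const_mul _ ((Complex.continuous_ofReal.tendsto _).comp hf)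

/-- LR1b -/
theorem g_deriv (g c k : Lp ℝ 2 μ) : HasDerivAt (fun s : ℝ =>
    ∫ f, (g f : ℂ) * Complex.exp (I * (((c + s • k : Lp ℝ 2 μ) f : ℝ) : ℂ)) ∂μ)
      (I * ∫ f, ((g f * k f : ℝ) : ℂ) * Complex.exp (I * ((c f : ℝ) : ℂ)) ∂μ) 0 := by
  have e1 : (fun s : ℝ =>
      ∫ f, (g f : ℂ) * Complex.exp (I * (((c + s • k : Lp ℝ 2 μ) f : ℝ) : ℂ)) ∂μ) =
      fun s : ℝ => ∫ f, (g f : ℂ) * Complex.exp (I * ((c f + s * k f : ℝ) : ℂ)) ∂μ := by
    funext s
    refine integral_congr_ae ?_
    filter_upwards [coe_line c k s] with f hf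
    rw [hf]
  have e2 : I * ∫ f, ((g f * k f : ℝ) : ℂ) * Complex.exp (I * ((c f : ℝ) : ℂ)) ∂μ =
      ∫ f, (g f : ℂ) * (I * (k f : ℂ) * Complex.exp (I * ((c f + 0 * k f : ℝ) : ℂ))) ∂μ := by
    rw [← integral_const_mul]
    refine integral_congr_ae (Eventually.of_forall fun f => ?_)
    simp only [zero_mul, add_zero]
    push_cast
    ring
  rw [e1, e2]
  have hmg := (Lp.stronglyMeasurable g).measurable
  have hmc := (Lp.stronglyMeasurable c).measurable
  have hmk := (Lp.stronglyMeasurable k).measurable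
  have hm : ∀ s : ℝ, Measurable fun f : Ω => Complex.exp (I * ((c f + s * k f : ℝ) : ℂ)) := by
    intro s
    exact Complex.measurable_exp.comp ((Complex.measurable_ofReal.comp
      (hmc.add (hmk.const_mul s))).const_mul I)
  have hgm : Measurable fun f : Ω => (g f : ℂ) := Complex.measurable_ofReal.comp hmg
  refine (hasDerivAt_integral_of_dominated_loc_of_deriv_le (μ := μ)
    (F := fun (s : ℝ) (f : Ω) => (g f : ℂ) * Complex.exp (I * ((c f + s * k f : ℝ) : ℂ)))
    (F' := fun (s : ℝ) (f : Ω) => (g f : ℂ) * (I * (k f : ℂ) *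
      Complex.exp (I * ((c f + s * k f : ℝ) : ℂ))))
    (bound := fun f => |g f * k f|) (Metric.ball_mem_nhds 0 one_pos) ?_ ?_ ?_ ?_ ?_ ?_).2
  · exact Eventually.of_forall fun s => (hgm.mul (hm s)).aestronglyMeasurable
  · refine (int_one g).norm.mono' (hgm.mul (hm 0)).aestronglyMeasurable
      (Eventually.of_forall fun f => ?_)
    rw [norm_mul, norm_exp_one, mul_one, Complex.norm_real]
  · exact (hgm.mul (((Complex.measurable_ofReal.comp hmk).const_mul I).mul
      (hm 0))).aestronglyMeasurable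
  · refine Eventually.of_forall fun f s' _ => ?_
    rw [norm_mul, norm_mul, norm_mul, Complex.norm_I, one_mul, Complex.norm_real, Complex.norm_real,
      norm_exp_one, mul_one, abs_mul, Real.norm_eq_abs, Real.norm_eq_abs]
  · exact (int_mul g k).abs
  · refine Eventually.of_forall fun f s' _ => ?_
    have h1 : HasDerivAt (fun s : ℝ => ((c f + s * k f : ℝ) : ℂ)) ((k f : ℝ) : ℂ) s' := by
      have := (((hasDerivAt_id' s').mul_const (k f)).const_add (c f)).ofReal_comp
      simpa using this
    have h2 := ((h1.const_mul I).cexp).const_mul (g f : ℂ)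
    refine h2.congr_deriv ?_
    ring

end general

end

end Pool.Agent.Helper41.Lr
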