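import Pool.Agent.Helper26.Lr.Cond
import Pool.Agent.Helper41.Lr.LR1
import Pool.Agent.Helper41.Ip.Gauss
import Pool.Agent.Helper72.Lr.LR5a

/-!
# Conditional moments: package LR5 (cond1, cond2)
-/

set_option autoImplicit false
set_option linter.unusedSectionVars false
open MeasureTheory Filter Topology ProbabilityTheory
open scoped ContDiff ENNReal InnerProductSpace

namespace Pool.Agent.Helper41.Lr

open Pool.Agent.N661.BR (MW J0 IsStationary shift meas_eval meas_shift IsGaussianLaw lin meas_lin)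
open Pool.Agent.Helper37.BC
open Pool.Agent.Helper26.Ip
open Pool.Agent.Helper26.Lr
open Pool.Agent.Helper41.Ip
open Complex (I)

noncomputable section

variable {μ : Measure MW} [IsProbabilityMeasure μ]

theorem inner_int (a b : Lp ℝ 2 μ) : ⟪a, b⟫_ℝ = ∫ f, a f * b f ∂μ := by
  rw [L2.inner_def]
  refine integral_congr_ae (Eventually.of_forall fun f => ?_)
  show b f * (starRingEnd ℝ) (a f) = a f * b f
  simp [mul_comm]

/-- the two identities for finite combinations -/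
theorem span_id (hs : IsStationary μ) (h2 : Integrable (fun f : MW => f 0 ^ 2) μ)
    (hR : Regression μ) {c : Lp ℝ 2 μ} (hc : c ∈ Submodule.span ℝ (Set.range (V hs h2)))
    (h0 : ⟪c, V hs h2 0⟫_ℝ = 0) :
    ∫ f, ((V hs h2 0) f : ℂ) * Complex.exp (I * ((c f : ℝ) : ℂ)) ∂μ = 0 ∧
    ∫ f, (((V hs h2 0) f * (V hs h2 0) f : ℝ) : ℂ) * Complex.exp (I * ((c f : ℝ) : ℂ)) ∂μ =
      ((⟪V hs h2 0, V hs h2 0⟫_ℝ : ℝ) : ℂ) * ch c := by
  obtain ⟨k, w, t, rfl⟩ := span_cmb hs h2 hc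
  have h1 : ∫ f : MW, f 0 * lin w t f ∂μ = 0 := by
    refine Eq.trans ?_ ((inner_int _ _).symm.trans h0)
    refine integral_congr_ae ?_
    filter_upwards [cmb_coe hs h2 w t, V_coe hs h2 0] with f h3 h4
    rw [h3, h4, mul_comm]
  obtain ⟨h3, h4⟩ := Pool.Agent.Helper72.Lr.reg_exp hs h2 hR k w t h1
  constructor
  · refine Eq.trans ?_ h3
    refine integral_congr_ae ?_
    filter_upwards [cmb_coe hs h2 w t, V_coe hs h2 0] with f h5 h6
    rw [h5, h6]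
  · have e1 : ⟪V hs h2 0, V hs h2 0⟫_ℝ = ∫ f : MW, f 0 ^ 2 ∂μ := by
      rw [inner_int]
      refine integral_congr_ae ?_
      filter_upwards [V_coe hs h2 0] with f h6
      rw [h6, sq]
    rw [e1, ch_cmb, ← h4]
    refine integral_congr_ae ?_
    filter_upwards [cmb_coe hs h2 w t, V_coe hs h2 0] with f h5 h6
    rw [h5, h6, sq]

/-- the two identities for the values, at the point zero -/
theorem values_id (hs : IsStationary μ) (h2 : Integrable (fun f : MW => f 0 ^ 2) μ)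
    (hR : Regression μ) {c : Lp ℝ 2 μ} (hc : c ∈ values μ) (h0 : ⟪c, V hs h2 0⟫_ℝ = 0) :
    ∫ f, ((V hs h2 0) f : ℂ) * Complex.exp (I * ((c f : ℝ) : ℂ)) ∂μ = 0 ∧
    ∫ f, (((V hs h2 0) f * (V hs h2 0) f : ℝ) : ℂ) * Complex.exp (I * ((c f : ℝ) : ℂ)) ∂μ =
      ((⟪V hs h2 0, V hs h2 0⟫_ℝ : ℝ) : ℂ) * ch c := by
  set v := V hs h2 0 with hv
  -- the projection
  let T : Lp ℝ 2 μ → Lp ℝ 2 μ := fun c => c - (⟪c, v⟫_ℝ / ⟪v, v⟫_ℝ) • v
  have hT : Continuous T := by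
    have h1 : Continuous fun c : Lp ℝ 2 μ => ⟪c, v⟫_ℝ := continuous_id.inner continuous_const
    show Continuous fun c : Lp ℝ 2 μ => c - (⟪c, v⟫_ℝ / ⟪v, v⟫_ℝ) • v
    fun_prop
  have hTv : ∀ c, ⟪T c, v⟫_ℝ = 0 := by
    intro c
    show ⟪c - (⟪c, v⟫_ℝ / ⟪v, v⟫_ℝ) • v, v⟫_ℝ = 0
    rw [inner_sub_left, inner_smul_left]
    by_cases hvv : ⟪v, v⟫_ℝ = 0
    · have h3 : v = 0 := inner_self_eq_zero.1 hvv
      rw [h3]
      simp
    · simp only [conj_trivial]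
      rw [div_mul_cancel₀ _ hvv, sub_self]
  have hTc : T c = c := by
    show c - (⟪c, v⟫_ℝ / ⟪v, v⟫_ℝ) • v = c
    rw [h0, zero_div, zero_smul, sub_zero]
  have hi1 : Integrable (fun f => v f) μ := int_one v
  have hi2 : Integrable (fun f => v f * v f) μ := int_mul v v
  have hcl : IsClosed {c : Lp ℝ 2 μ |
      ∫ f, (v f : ℂ) * Complex.exp (I * (((T c) f : ℝ) : ℂ)) ∂μ = 0 ∧
      ∫ f, ((v f * v f : ℝ) : ℂ) * Complex.exp (I * (((T c) f : ℝ) : ℂ)) ∂μ =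
        ((⟪v, v⟫_ℝ : ℝ) : ℂ) * ch (T c)} := by
    refine IsClosed.inter (isClosed_eq ?_ continuous_const) (isClosed_eq ?_ ?_)
    · exact (g_cont (fun f => v f) hi1).comp hT
    · exact (g_cont (fun f => v f * v f) hi2).comp hT
    · exact continuous_const.mul (ch_cont.comp hT)
  have hsub : ((Submodule.span ℝ (Set.range (V hs h2)) : Submodule ℝ (Lp ℝ 2 μ)) :
      Set (Lp ℝ 2 μ)) ⊆ {c : Lp ℝ 2 μ |
      ∫ f, (v f : ℂ) * Complex.exp (I * (((T c) f : ℝ) : ℂ)) ∂μ = 0 ∧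
      ∫ f, ((v f * v f : ℝ) : ℂ) * Complex.exp (I * (((T c) f : ℝ) : ℂ)) ∂μ =
        ((⟪v, v⟫_ℝ : ℝ) : ℂ) * ch (T c)} := by
    intro c hc
    have h3 : T c ∈ Submodule.span ℝ (Set.range (V hs h2)) :=
      Submodule.sub_mem _ hc (Submodule.smul_mem _ _ (Submodule.subset_span ⟨0, rfl⟩))
    exact span_id hs h2 hR h3 (hTv c)
  rw [values_eq hs h2] at hc
  have h3 := (hcl.closure_subset_iff.2 hsub) hc
  have h4 : ∫ f, (v f : ℂ) * Complex.exp (I * (((T c) f : ℝ) : ℂ)) ∂μ = 0 ∧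
      ∫ f, ((v f * v f : ℝ) : ℂ) * Complex.exp (I * (((T c) f : ℝ) : ℂ)) ∂μ =
        ((⟪v, v⟫_ℝ : ℝ) : ℂ) * ch (T c) := h3
  rwa [hTc] at h4

theorem S_int1 (hs : IsStationary μ) (x : ℂ) (g k : Lp ℝ 2 μ) :
    ∫ f, ((S hs x k) f : ℂ) * Complex.exp (I * (((S hs x g) f : ℝ) : ℂ)) ∂μ =
      ∫ f, (k f : ℂ) * Complex.exp (I * ((g f : ℝ) : ℂ)) ∂μ := by
  rw [← int_shift_C hs (meas_kexp k g) x]
  refine integral_congr_ae ?_
  filter_upwards [S_coe hs x g, S_coe hs x k] with f hf hk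
  rw [hf, hk]

theorem S_int2 (hs : IsStationary μ) (x : ℂ) (g k v : Lp ℝ 2 μ) :
    ∫ f, (((S hs x k) f * (S hs x v) f : ℝ) : ℂ) *
      Complex.exp (I * (((S hs x g) f : ℝ) : ℂ)) ∂μ =
      ∫ f, ((k f * v f : ℝ) : ℂ) * Complex.exp (I * ((g f : ℝ) : ℂ)) ∂μ := by
  rw [← int_shift_C hs (meas_g (int_mul k v) g) x]
  refine integral_congr_ae ?_
  filter_upwards [S_coe hs x g, S_coe hs x k, S_coe hs x v] with f hf hk hv
  rw [hf, hk, hv]

theorem S_back (hs : IsStationary μ) (x : ℂ) (c : Lp ℝ 2 μ) : S hs x (S hs (-x) c) = c := by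
  rw [← S_add, add_neg_cancel, S_zero]

theorem S_V0 (hs : IsStationary μ) (h2 : Integrable (fun f : MW => f 0 ^ 2) μ) (x : ℂ) :
    S hs x (V hs h2 0) = V hs h2 x := by
  rw [S_V, zero_add]

/-- the two identities for the values, at all points -/
theorem values_id' (hs : IsStationary μ) (h2 : Integrable (fun f : MW => f 0 ^ 2) μ)
    (hR : Regression μ) {c : Lp ℝ 2 μ} (hc : c ∈ values μ) (x : ℂ) (h0 : ⟪c, V hs h2 x⟫_ℝ = 0) :
    ∫ f, ((V hs h2 x) f : ℂ) * Complex.exp (I * ((c f : ℝ) : ℂ)) ∂μ = 0 ∧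
    ∫ f, (((V hs h2 x) f * (V hs h2 x) f : ℝ) : ℂ) * Complex.exp (I * ((c f : ℝ) : ℂ)) ∂μ =
      ((⟪V hs h2 x, V hs h2 x⟫_ℝ : ℝ) : ℂ) * ch c := by
  have hc' : S hs (-x) c ∈ values μ := S_values hs h2 (-x) hc
  have h0' : ⟪S hs (-x) c, V hs h2 0⟫_ℝ = 0 := by
    rw [← (S hs x).inner_map_map, S_back, S_V0, h0]
  obtain ⟨h3, h4⟩ := values_id hs h2 hR hc' h0'
  rw [← S_int1 hs x, S_back, S_V0] at h3
  rw [← S_int2 hs x, S_back, S_V0, ← (S hs x).inner_map_map, S_V0, ← S_ch hs x, S_back] at h4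
  exact ⟨h3, h4⟩

/-- LR5b -/
theorem cond1 (hs : IsStationary μ) (h2 : Integrable (fun f : MW => f 0 ^ 2) μ)
    (hR : Regression μ) : Cond1 hs h2 := fun _ hc x h0 => (values_id' hs h2 hR hc x h0).1

theorem int_gexp {g : MW → ℝ} (hg : Integrable g μ) (c : Lp ℝ 2 μ) :
    Integrable (fun f => (g f : ℂ) * Complex.exp (I * ((c f : ℝ) : ℂ))) μ := by
  refine hg.norm.mono' (meas_g hg c) (Eventually.of_forall fun f => ?_)
  rw [norm_mul, norm_exp_one, mul_one, Complex.norm_real]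

/-- LR5c -/
theorem cond2 (hs : IsStationary μ) (h2 : Integrable (fun f : MW => f 0 ^ 2) μ)
    (hR : Regression μ) : Cond2 hs h2 := by
  intro c hc x h0 k hk
  set v := V hs h2 x with hv
  have hvm : v ∈ values μ := V_mem hs h2 x
  -- the orthogonal case
  have hperp : ∀ k ∈ values μ, ⟪k, v⟫_ℝ = 0 →
      ∫ f, ((k f * v f : ℝ) : ℂ) * Complex.exp (I * ((c f : ℝ) : ℂ)) ∂μ = 0 := by
    intro k hk hkv
    have h3 := g_deriv v c k
    have h4 : (fun s : ℝ => ∫ f, (v f : ℂ) *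
        Complex.exp (I * (((c + s • k : Lp ℝ 2 μ) f : ℝ) : ℂ)) ∂μ) = fun _ => 0 := by
      funext s
      refine cond1 hs h2 hR (c + s • k) (Submodule.add_mem _ hc (Submodule.smul_mem _ _ hk)) x ?_
      rw [inner_add_left, inner_smul_left, h0, hkv]
      simp
    rw [h4] at h3
    have h5 := h3.unique (hasDerivAt_const (0:ℝ) (0:ℂ))
    have h6 := (mul_eq_zero.1 h5).resolve_left Complex.I_ne_zero
    rw [← h6]
    refine integral_congr_ae (Eventually.of_forall fun f => ?_)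
    simp only [mul_comm (k f)]
  by_cases hvv : ⟪v, v⟫_ℝ = 0
  · have h3 : v = 0 := inner_self_eq_zero.1 hvv
    rw [hperp k hk (by rw [h3, inner_zero_right]), h3, inner_zero_right]
    simp
  · set a := ⟪k, v⟫_ℝ / ⟪v, v⟫_ℝ with ha
    set k' := k - a • v with hk'
    have hk'm : k' ∈ values μ := Submodule.sub_mem _ hk (Submodule.smul_mem _ _ hvm)
    have hk'v : ⟪k', v⟫_ℝ = 0 := by
      rw [hk', inner_sub_left, inner_smul_left, ha]
      simp only [conj_trivial]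
      rw [div_mul_cancel₀ _ hvv, sub_self]
    have h3 := hperp k' hk'm hk'v
    have h4 := (values_id' hs h2 hR hc x h0).2
    have h5 : ∫ f, ((k f * v f : ℝ) : ℂ) * Complex.exp (I * ((c f : ℝ) : ℂ)) ∂μ =
        (∫ f, ((k' f * v f : ℝ) : ℂ) * Complex.exp (I * ((c f : ℝ) : ℂ)) ∂μ) +
        (a : ℂ) * ∫ f, ((v f * v f : ℝ) : ℂ) * Complex.exp (I * ((c f : ℝ) : ℂ)) ∂μ := by
      rw [← integral_const_mul, ← integral_add (int_gexp (int_mul k' v) c)
        ((int_gexp (int_mul v v) c).const_mul _)]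
      refine integral_congr_ae ?_
      filter_upwards [Lp.coeFn_sub k (a • v), Lp.coeFn_smul a v] with f h6 h7
      rw [hk', h6, Pi.sub_apply, h7, Pi.smul_apply, smul_eq_mul]
      push_cast
      ring
    rw [h5, h3, zero_add]
    rw [← hv] at h4
    rw [h4, ← mul_assoc]
    congr 1
    rw [← Complex.ofReal_mul, ha, div_mul_cancel₀ _ hvv]

end

end Pool.Agent.Helper41.Lr
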